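import Pool.Agent.H546.L1.Ser
import Pool.Agent.H546.Hasse
import Pool.Agent.H546.Dat

set_option autoImplicit false

/-!
# The Hasse invariant of the family `y² = x³ - 3x + 4z - 2` and isogenies
-/

namespace Pool.Agent.H546.L1

section hasse

open PowerSeries

variable {k : Type*} [Field k] {p : ℕ} [hp : Fact p.Prime] [CharP k p]

/-- the Hasse coefficient -/
noncomputable def h6 {k : Type*} [CommRing k] (p : ℕ) (z : k) : k :=
  ((Polynomial.X * gu6 z) ^ ((p - 1) / 2)).coeff (p - 1)

theorem ps6_const (z : k) : constantCoeff (ps6 z) = 1 := by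
  rw [← coeff_zero_eq_constantCoeff_apply, ps6_coeff]
  simp [lg_zero]

theorem h6_cs (hp2 : p ≠ 2) (z : k) : h6 p z = coeff (p - 1) (cs6 z) := by
  obtain ⟨e, he⟩ := hp.out.odd_of_ne_two hp2
  have e1 : (p - 1) / 2 = e := by omega
  have h20 : (2 : k) ≠ 0 := by
    have := small_ne (k := k) (p := p) (n := 2) (by norm_num) (by have := hp.out.two_le; omega)
    exact_mod_cast this
  obtain ⟨v, hv⟩ : ∃ v : k, 2 * v = 1 := ⟨2⁻¹, mul_inv_cancel₀ h20⟩
  have h1 := cart_poly (k := k) (p := p) (Ys v) (Ys_const _) (((gu6 z).comp (Polynomial.X ^ 2)) ^ e)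
  have hu1 : coeff 1 (Ys v) = 1 := by
    have h := Ys_der_const hv
    rw [← coeff_zero_eq_constantCoeff_apply, coeff_derivative] at h
    simpa using h
  rw [hu1, one_pow, mul_one] at h1
  have hcoe : (((gu6 z).comp (Polynomial.X ^ 2)) ^ e).coeff (p - 1) = h6 p z := by
    unfold h6
    rw [e1, mul_pow, ← Polynomial.pow_comp, ← Polynomial.expand_eq_comp_X_pow,
      show p - 1 = e * 2 by omega, Polynomial.coeff_expand_mul (by norm_num), Polynomial.coeff_X_pow_mul',
      if_pos (by omega)]
    congr 1; omega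
  rw [hcoe] at h1
  rw [← h1, map_pow]
  have hfam := fam6 hv z
  have hal : Polynomial.aeval (Ys v) ((gu6 z).comp (Polynomial.X ^ 2)) =
      hs v ^ 6 * ((1 - X ^ 6) ^ 2 + 4 * C z * X ^ 6) := by
    rw [← hfam, Polynomial.aeval_comp, map_pow, Polynomial.aeval_X]
    simp only [gu6, map_add, map_sub, map_mul, map_pow, map_one, map_ofNat, Polynomial.aeval_X, Polynomial.aeval_C]
    rfl
  rw [hal, Ys_der hv]
  have hps := ps6_sq z
  set g := hs v with hg
  have h2 : (g ^ 3) ^ p * cs6 z = ps6 z ^ p *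
      ((g ^ 6 * ((1 - X ^ 6) ^ 2 + 4 * C z * X ^ 6)) ^ e * (g ^ 3 * (1 - X ^ 4))) := by
    have h3 := congrArg (fun x => x ^ e) hps
    simp only [one_pow] at h3
    unfold cs6
    rw [he]
    rw [mul_pow] at h3
    rw [mul_pow]
    have hh : ps6 z ^ (2 * e + 1) = ps6 z * (ps6 z ^ 2) ^ e := by ring
    have hgg : (g ^ 3) ^ (2 * e + 1) = (g ^ 6) ^ e * g ^ 3 := by
      rw [← pow_mul, ← pow_mul, ← pow_add]; congr 1; ring
    rw [hh, hgg]
    linear_combination (-((g ^ 6) ^ e * g ^ 3 * (1 - X ^ 4) * ps6 z)) * h3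
  have h4' := congrArg (coeff (p - 1)) h2
  have hc1 : constantCoeff (g ^ 3) = 1 := by rw [map_pow, hg, hs_const, one_pow]
  rw [pow_low _ _ hc1, pow_low _ _ (ps6_const z), one_pow, one_mul, one_mul] at h4'
  rw [h4']

/-- the Hasse coefficient as a Legendre polynomial -/
theorem h6_lg (hp5 : 5 ≤ p) : ∃ χ : ℤ, (χ = 1 ∨ χ = -1) ∧ ∀ z : k, h6 p z = χ * lg (p / 6) z := by
  have hp2 : p ≠ 2 := by omega
  have hmod : p % 6 = 1 ∨ p % 6 = 5 := by
    have h2 : ¬ 2 ∣ p := fun h => by
      have := (Nat.prime_dvd_prime_iff_eq (by norm_num) hp.out).mp h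
      omega
    have h3 : ¬ 3 ∣ p := fun h => by
      have := (Nat.prime_dvd_prime_iff_eq (by norm_num) hp.out).mp h
      omega
    omega
  rcases hmod with h | h
  · exact ⟨1, Or.inl rfl, fun z => by rw [h6_cs hp2, cs6_coeff1 z p h]; simp⟩
  · exact ⟨-1, Or.inr rfl, fun z => by rw [h6_cs hp2, cs6_coeff5 z p h]; simp⟩

/-- **Isogenies and the Hasse coefficient.** -/
theorem hasse6 (hp2 : p ≠ 2) {z z' m : k} {N D : Polynomial k} (hN : N.coeff 0 = 0) (hN1 : N.coeff 1 ≠ 0)
    (hD : D.coeff 0 ≠ 0) (hm : m ≠ 0) (ode : Polynomial.X * gu6 z * wr N D ^ 2 = Polynomial.C m ^ 2 *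
      (N * (D ^ 3 - 3 * D * N ^ 2 + Polynomial.C (4 * z' - 2) * N ^ 3))) :
    m * h6 p z = m ^ p * h6 p z' := by
  obtain ⟨e, he⟩ := hp.out.odd_of_ne_two hp2
  have e1 : (p - 1) / 2 = e := by omega
  set al : Polynomial k →+* k⟦X⟧ := Polynomial.coeToPowerSeries.ringHom with hal
  have alC : ∀ c : k, al (Polynomial.C c) = C c := fun c => by simp [hal]
  have alX : al Polynomial.X = X := by simp [hal]
  have alc : ∀ P : Polynomial k, constantCoeff (al P) = P.coeff 0 := fun P => by
    rw [← coeff_zero_eq_constantCoeff_apply]; simp [hal]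
  have alD : ∀ P : Polynomial k, d⁄dX k (al P) = al (Polynomial.derivative P) := by
    intro P; simp [hal, derivative_coe]
  have hDu : IsUnit (al D) := by
    rw [PowerSeries.isUnit_iff_constantCoeff, alc]
    exact isUnit_iff_ne_zero.mpr hD
  obtain ⟨iD, hiD⟩ := hDu.exists_left_inv
  set U := al N * iD with hU
  have hiD' : d⁄dX k iD = - iD ^ 2 * (al (Polynomial.derivative D)) := by
    have h := congrArg (d⁄dX k) hiD
    rw [Derivation.leibniz, derivative_one, smul_eq_mul, smul_eq_mul, alD] at h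
    linear_combination iD * h - (d⁄dX k iD) * hiD
  have hdU : d⁄dX k U = al (wr N D) * iD ^ 2 := by
    rw [hU, Derivation.leibniz, smul_eq_mul, smul_eq_mul, alD, hiD', wr, map_sub, map_mul, map_mul]
    linear_combination (-(iD * al (Polynomial.derivative N))) * hiD
  have hU0 : constantCoeff U = 0 := by rw [hU, map_mul, alc, hN, zero_mul]
  have hwU : Polynomial.aeval U (Polynomial.X * gu6 z') = U * (1 - 3 * U ^ 2 + C (4 * z' - 2) * U ^ 3) := by
    simp only [gu6, map_add, map_sub, map_mul, map_pow, map_one, Polynomial.aeval_X, Polynomial.aeval_C,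
      map_ofNat]
    rfl
  have hode := congrArg al ode
  have hCm : C m * C m⁻¹ = (1 : k⟦X⟧) := by rw [← map_mul, mul_inv_cancel₀ hm, map_one]
  have key : Polynomial.aeval U (Polynomial.X * gu6 z') = al (Polynomial.X * gu6 z) * (C m⁻¹ * d⁄dX k U) ^ 2 := by
    rw [hwU, hdU]
    rw [map_mul, map_pow, map_mul al (Polynomial.C m ^ 2), map_pow, alC] at hode
    have hr : al (N * (D ^ 3 - 3 * D * N ^ 2 + Polynomial.C (4 * z' - 2) * N ^ 3)) =
        al N * (al D ^ 3 - 3 * al D * al N ^ 2 + C (4 * z' - 2) * al N ^ 3) := by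
      have h3 : al (3 : Polynomial k) = 3 := map_ofNat al 3
      rw [map_mul, map_add, map_sub, map_mul, map_mul, map_mul, map_pow, map_pow, map_pow, alC, h3]
    rw [hr] at hode
    have e2 : U * (1 - 3 * U ^ 2 + C (4 * z' - 2) * U ^ 3) =
          iD ^ 4 * (al N * (al D ^ 3 - 3 * al D * al N ^ 2 + C (4 * z' - 2) * al N ^ 3)) := by
      rw [hU]
      linear_combination (-(al N * iD * (1 + iD * al D + (iD * al D) ^ 2)) + 3 * al N ^ 3 * iD ^ 3) * hiD
    rw [e2]
    linear_combination (-(C m⁻¹ ^ 2 * iD ^ 4)) * hode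
      + (-(C m * C m⁻¹ + 1) * (iD ^ 4 * (al N * (al D ^ 3 - 3 * al D * al N ^ 2 + C (4 * z' - 2) * al N ^ 3)))) * hCm
  have hke : Polynomial.aeval U ((Polynomial.X * gu6 z') ^ e) * d⁄dX k U =
      C (m⁻¹ ^ (2 * e)) * ((d⁄dX k U) ^ p * al ((Polynomial.X * gu6 z) ^ e)) := by
    rw [map_pow, key, he, map_pow, map_pow]
    ring
  have h1 := cart_poly (k := k) (p := p) U hU0 ((Polynomial.X * gu6 z') ^ e)
  have hc1 : constantCoeff (d⁄dX k U) = coeff 1 U := by
    rw [← coeff_zero_eq_constantCoeff_apply, coeff_derivative]; simp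
  rw [hke, coeff_C_mul, pow_low _ _ hc1] at h1
  have hcoe : coeff (p - 1) (al ((Polynomial.X * gu6 z) ^ e)) = ((Polynomial.X * gu6 z) ^ e).coeff (p - 1) :=
    Polynomial.coeff_coe _ _
  rw [hcoe] at h1
  have hne : coeff 1 U ≠ 0 := by
    rw [← hc1, hdU, map_mul, map_pow, alc]
    refine mul_ne_zero ?_ (pow_ne_zero 2 ?_)
    · have : (wr N D).coeff 0 = N.coeff 1 * D.coeff 0 := by
        rw [wr, Polynomial.coeff_sub, Polynomial.mul_coeff_zero, Polynomial.mul_coeff_zero, hN,
          Polynomial.coeff_derivative]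
        simp
      rw [this]
      exact mul_ne_zero hN1 hD
    · intro h0
      have := congrArg constantCoeff hiD
      rw [map_mul, h0, zero_mul, map_one] at this
      exact zero_ne_one this
  unfold h6
  rw [e1]
  have h3 : m⁻¹ ^ (2 * e) * ((Polynomial.X * gu6 z) ^ e).coeff (p - 1) = ((Polynomial.X * gu6 z') ^ e).coeff (p - 1) := by
    apply mul_right_cancel₀ (pow_ne_zero p hne)
    rw [← h1]; ring
  rw [← h3, he]
  have hmm : m ^ (2 * e) * m⁻¹ ^ (2 * e) = 1 := by
    rw [← mul_pow, mul_inv_cancel₀ hm, one_pow]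
  rw [pow_succ]
  linear_combination (-(m * ((Polynomial.X * gu6 z) ^ e).coeff (2 * e + 1 - 1))) * hmm

end hasse

section rev

open Polynomial

theorem cub_reflect {R : Type*} [CommRing R] (z : R) : reflect 4 (cub (-3) (4 * z - 2)) = X * gu6 z := by
  have e : cub (-3) (4 * z - 2) = C 1 * X ^ 3 + (C (-3) * X ^ 1 + C (4 * z - 2) * X ^ 0) := by
    unfold cub; simp only [C_1, map_neg, map_ofNat]; ring
  rw [e, reflect_add, reflect_add, reflect_C_mul_X_pow, reflect_C_mul_X_pow, reflect_C_mul_X_pow,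
    revAt_le (by norm_num), revAt_le (by norm_num), revAt_le (by norm_num)]
  unfold gu6
  simp only [C_1, map_neg, map_ofNat]
  ring

/-- the equation in the parameter at infinity -/
theorem rev_ode6 {R : Type*} [CommRing R] {n : ℕ} (hn : 1 ≤ n) {z z' w : R} {N D M : R[X]}
    (hN : N.natDegree ≤ n) (hD : D.natDegree ≤ n) (hM : M.natDegree ≤ 2 * n - 2)
    (ode : cub (-3) (4 * z - 2) * M ^ 2 = C w ^ 2 * tgt (-3) (4 * z' - 2) N D) :
    X * gu6 z * reflect (2 * n - 2) M ^ 2 = C w ^ 2 * (reflect n D *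
      (reflect n N ^ 3 - 3 * reflect n N * reflect n D ^ 2 + C (4 * z' - 2) * reflect n D ^ 3)) := by
  have hgd : (cub (-3) (4 * z - 2)).natDegree ≤ 4 := by
    unfold cub
    have h1 : (X ^ 3 + C (-3) * X + C (4 * z - 2) : R[X]).natDegree ≤ 3 := by compute_degree
    omega
  have hM2 : (M ^ 2).natDegree ≤ (2 * n - 2) + (2 * n - 2) := by
    rw [pow_two]
    exact natDegree_mul_le.trans (by omega)
  have l1 := reflect_mul (cub (-3) (4 * z - 2)) (M ^ 2) hgd hM2
  have l2 := reflect_mul M M hM hM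
  rw [← pow_two] at l2
  rw [l2, cub_reflect] at l1
  have r1 := reflect_mul N N hN hN
  have d1 : (N * N).natDegree ≤ n + n := natDegree_mul_le.trans (by omega)
  have r2 := reflect_mul (N * N) N d1 hN
  have r4 := reflect_mul N D hN hD
  have d2 : (N * D).natDegree ≤ n + n := natDegree_mul_le.trans (by omega)
  have r5 := reflect_mul (N * D) D d2 hD
  have r7 := reflect_mul D D hD hD
  have d4 : (D * D).natDegree ≤ n + n := natDegree_mul_le.trans (by omega)
  have r8 := reflect_mul (D * D) D d4 hD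
  have d3 : (N * N * N + C (-3) * (N * D * D) + C (4 * z' - 2) * (D * D * D)).natDegree ≤ n + n + n := by
    have a1 : (N * N * N).natDegree ≤ n + n + n := natDegree_mul_le.trans (by omega)
    have a2 : (N * D * D).natDegree ≤ n + n + n := natDegree_mul_le.trans (by omega)
    have a3 : (D * D * D).natDegree ≤ n + n + n := natDegree_mul_le.trans (by omega)
    refine (natDegree_add_le _ _).trans (max_le ((natDegree_add_le _ _).trans (max_le a1 ?_)) ?_)
    · exact (natDegree_C_mul_le _ _).trans a2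
    · exact (natDegree_C_mul_le _ _).trans a3
  have r6 := reflect_mul D _ hD d3
  rw [reflect_add, reflect_add, reflect_C_mul, reflect_C_mul, r2, r5, r8, r1, r4, r7] at r6
  have hw2 : (C w ^ 2 : R[X]) = C (w ^ 2) := by rw [C_pow]
  have e1 : cub (-3) (4 * z - 2) * M ^ 2 =
      C (w ^ 2) * (D * (N * N * N + C (-3) * (N * D * D) + C (4 * z' - 2) * (D * D * D))) := by
    rw [ode, hw2]
    unfold tgt
    ring
  rw [e1, reflect_C_mul, show 4 + (2 * n - 2 + (2 * n - 2)) = n + (n + n + n) by omega, r6] at l1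
  rw [hw2]
  have h3 : (C (-3) : R[X]) = -3 := by rw [map_neg, map_ofNat]
  rw [h3] at l1
  linear_combination -l1

/-- the degree of the denominator of a separable isogeny -/
theorem deg_den6 {F : Type*} [Field F] {a b a' b' m : F} {n d : F[X]} (hd : d ≠ 0) (h : d.natDegree < n.natDegree)
    (hm : m ≠ 0) (ode : cub a b * wr n d ^ 2 = C m ^ 2 * tgt a' b' n d) : d.natDegree + 1 = n.natDegree := by
  have hn : n ≠ 0 := by rintro rfl; simp at h
  have hcd : (cub a b).natDegree = 3 := by unfold cub; compute_degree!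
  have hq : (n ^ 3 + C a' * n * d ^ 2 + C b' * d ^ 3).natDegree = 3 * n.natDegree := by
    rw [add_assoc, natDegree_add_eq_left_of_natDegree_lt, natDegree_pow]
    rw [natDegree_pow]
    refine lt_of_le_of_lt (natDegree_add_le _ _) (max_lt ?_ ?_)
    · refine lt_of_le_of_lt natDegree_mul_le ?_
      rw [natDegree_pow]
      have := natDegree_C_mul_le a' n
      omega
    · refine lt_of_le_of_lt (natDegree_C_mul_le _ _) ?_
      rw [natDegree_pow]
      omega
  have hq0 : (n ^ 3 + C a' * n * d ^ 2 + C b' * d ^ 3) ≠ 0 := by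
    intro h0
    rw [h0, natDegree_zero] at hq
    omega
  have ht : (tgt a' b' n d).natDegree = d.natDegree + 3 * n.natDegree := by
    unfold tgt
    rw [natDegree_mul hd hq0, hq]
  have ht0 : tgt a' b' n d ≠ 0 := by unfold tgt; exact mul_ne_zero hd hq0
  have hw0 : wr n d ≠ 0 := by
    intro h0
    rw [h0, zero_pow two_ne_zero, mul_zero] at ode
    exact mul_ne_zero (pow_ne_zero 2 (C_ne_zero.mpr hm)) ht0 ode.symm
  have e := congrArg natDegree ode
  rw [natDegree_mul (cub_ne a b) (pow_ne_zero 2 hw0), hcd, natDegree_pow, ← C_pow,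
    natDegree_C_mul (pow_ne_zero 2 hm), ht] at e
  have hwd : (wr n d).natDegree + 1 ≤ n.natDegree + d.natDegree := by
    by_cases hd0 : d.natDegree = 0
    · obtain ⟨c, hc⟩ := natDegree_eq_zero.mp hd0
      have : wr n d = derivative n * d := by rw [wr, ← hc, derivative_C]; ring
      rw [this]
      have h1 := natDegree_mul_le (p := derivative n) (q := d)
      have h2 := natDegree_derivative_lt (p := n) (by omega)
      omega
    · unfold wr
      have h1 := natDegree_mul_le (p := derivative n) (q := d)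
      have h2 := natDegree_mul_le (p := n) (q := derivative d)
      have h3 := natDegree_derivative_lt (p := n) (by omega)
      have h4 := natDegree_derivative_lt (p := d) hd0
      have h5 := natDegree_sub_le (derivative n * d) (n * derivative d)
      omega
  omega

end rev

section ss

open Polynomial

variable {O K k : Type*} [CommRing O] [IsDomain O] [Field K] [Algebra O K] [Field k]
  (S : DV O K k)

/-- the Hasse relation from an isogeny -/
theorem ssq6 {p : ℕ} [hp : Fact p.Prime] [CharP k p] (hp5 : 5 ≤ p) {z z' m : O} (hm : S.red m ≠ 0) {l : ℕ}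
    (dat : Dat S (cub (-3) (4 * z - 2)) (-3) (4 * z' - 2) m l) :
    S.red m * lg (p / 6) (S.red z) = S.red m ^ p * lg (p / 6) (S.red z') := by
  obtain ⟨n, d, ode, hd, hdeg, hnl, copK, copk, hl⟩ := dat
  -- reduce
  have odek := congrArg (Polynomial.map S.red) ode
  have r3 : S.red (-3) = -3 := by rw [map_neg, map_ofNat]
  have r4 : ∀ x : O, S.red (4 * x - 2) = 4 * S.red x - 2 := fun x => by
    rw [map_sub, map_mul, map_ofNat, map_ofNat]
  rw [Polynomial.map_mul, Polynomial.map_pow, Polynomial.map_mul, Polynomial.map_pow, cub_map, wr_map,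
    tgt_map, map_C, r3, r4, r4] at odek
  set nk := n.map S.red with hnk
  set dk := d.map S.red with hdk
  set ζ := S.red z with hζ
  set ζ' := S.red z' with hζ'
  set μ := S.red m with hμ
  have hl0 : 0 < l := by omega
  have hdk0 : dk ≠ 0 := by
    intro h0
    rw [h0, isCoprime_zero_right] at copk
    have := natDegree_eq_zero_of_isUnit copk
    omega
  have hdkd : dk.natDegree < nk.natDegree := by
    rw [hl]
    exact lt_of_le_of_lt natDegree_map_le hdeg
  have hdd := deg_den6 hdk0 hdkd hm odek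
  have hNd : nk.natDegree = l := by rw [hl, hnl]
  rw [hNd] at hdd
  have hDd : dk.natDegree = l - 1 := by omega
  -- reverse
  have hwd : (wr nk dk).natDegree ≤ 2 * l - 2 := by
    rw [wr]
    refine (natDegree_sub_le _ _).trans (max_le ?_ ?_)
    · refine natDegree_mul_le.trans ?_
      have := natDegree_derivative_le nk
      omega
    · have := natDegree_derivative_le dk
      by_cases h1 : l = 1
      · have h2 : dk.natDegree = 0 := by omega
        obtain ⟨c, hc⟩ := natDegree_eq_zero.mp h2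
        rw [← hc, derivative_C, mul_zero, natDegree_zero]
        exact Nat.zero_le _
      · refine natDegree_mul_le.trans ?_
        omega
  have odeU := rev_ode6 hl0 (hNd.le) (by omega) hwd odek
  have hwrU := wr_reflect (N := nk) (D := dk) (M := wr nk dk) (q := (1 : k)) hl0 hNd.le (by omega) hwd
    (by rw [C_1, one_mul])
  rw [C_1, one_mul] at hwrU
  rw [← hwrU] at odeU
  have key := hasse6 (k := k) (p := p) (by omega) (z := ζ) (z' := ζ') (m := μ) (N := reflect l dk)
    (D := reflect l nk) ?_ ?_ ?_ hm ?_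
  · obtain ⟨χ, hχ, hlg⟩ := h6_lg (k := k) (p := p) hp5
    rw [hlg, hlg] at key
    have hχ2 : (χ : k) * χ = 1 := by rcases hχ with h | h <;> rw [h] <;> simp
    linear_combination (χ : k) * key - (μ * lg (p / 6) ζ - μ ^ p * lg (p / 6) ζ') * hχ2
  · rw [coeff_reflect, revAt_le (Nat.zero_le _), Nat.sub_zero]
    exact coeff_eq_zero_of_natDegree_lt (by omega)
  · rw [coeff_reflect, revAt_le (by omega), ← hDd]
    exact leadingCoeff_ne_zero.mpr hdk0
  · rw [coeff_reflect, revAt_le (Nat.zero_le _), Nat.sub_zero]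
    have hN0 : nk ≠ 0 := by intro h0; rw [h0, natDegree_zero] at hNd; omega
    have : nk.coeff l = nk.leadingCoeff := by rw [leadingCoeff, hNd]
    rw [this]
    exact leadingCoeff_ne_zero.mpr hN0
  · rw [odeU]

end ss

end Pool.Agent.H546.L1
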